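import Pool.Agent.H97.RL.Targets

/-!
# Board `rlm_modules`, row NUM: the numbers
-/

set_option autoImplicit false

namespace Pool.Agent.H49.RLM

open Finset Pool.Agent.H97.RK Pool.Agent.H97.RL

/-- Case A: no good weight. -/
theorem case_a (n N M X : ℕ) (hMN : M ≤ N) (h : 4 ^ n < 4 * M * X * 3 ^ n) :
    4 ^ n ≤ 1024 * N ^ 2 * (M + 1) ^ 3 * X ^ 5 := by
  have h1 : (4 ^ n) ^ 5 ≤ (4 * M * X * 3 ^ n) ^ 5 := Nat.pow_le_pow_left h.le 5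
  have h2 : (3 ^ n) ^ 5 * 4 ^ n ≤ (4 ^ n) ^ 5 := by
    have h3 : (3 ^ n) ^ 5 * 4 ^ n = 972 ^ n := by
      rw [← pow_mul, mul_comm n 5, pow_mul, ← mul_pow]
      norm_num
    have h4 : (4 ^ n) ^ 5 = 1024 ^ n := by
      rw [← pow_mul, mul_comm n 5, pow_mul]
      norm_num
    rw [h3, h4]
    exact Nat.pow_le_pow_left (by norm_num) n
  have h5 : (3 ^ n) ^ 5 * 4 ^ n ≤ (3 ^ n) ^ 5 * (1024 * M ^ 5 * X ^ 5) := by
    calc (3 ^ n) ^ 5 * 4 ^ n ≤ (4 * M * X * 3 ^ n) ^ 5 := h2.trans h1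
      _ = (3 ^ n) ^ 5 * (1024 * M ^ 5 * X ^ 5) := by ring
  have h6 : 4 ^ n ≤ 1024 * M ^ 5 * X ^ 5 := Nat.le_of_mul_le_mul_left h5 (by positivity)
  refine h6.trans ?_
  have h7 : M ^ 5 ≤ N ^ 2 * (M + 1) ^ 3 := by
    calc M ^ 5 = M ^ 2 * M ^ 3 := by ring
      _ ≤ N ^ 2 * (M + 1) ^ 3 :=
        Nat.mul_le_mul (Nat.pow_le_pow_left hMN 2) (Nat.pow_le_pow_left (Nat.le_succ M) 3)
  calc 1024 * M ^ 5 * X ^ 5 ≤ 1024 * (N ^ 2 * (M + 1) ^ 3) * X ^ 5 :=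
        Nat.mul_le_mul_right _ (Nat.mul_le_mul_left _ h7)
    _ = 1024 * N ^ 2 * (M + 1) ^ 3 * X ^ 5 := by ring

/-- Case B: the inequality at a good weight. -/
theorem case_b (n N M X b w : ℕ) (hw : w ≤ n) (hb : 4 * (4 ^ n * b) ≤ 8 ^ n)
    (hg : 4 * M * X * 3 ^ w ≤ 4 ^ w)
    (h : 8 ^ n ≤ N * (6 ^ w * 4 ^ (n - w) * X) + M * (6 ^ w * 8 ^ (n - w) * X) + 4 ^ n * b) :
    2 ^ n * 2 ^ w ≤ 2 * N * X * 3 ^ w := by
  obtain ⟨m, rfl⟩ := Nat.exists_eq_add_of_le hw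
  rw [Nat.add_sub_cancel_left] at h
  have h8 : (8 : ℕ) ^ (w + m) = 4 ^ w * 2 ^ w * 8 ^ m := by
    rw [pow_add, ← mul_pow]
    norm_num
  have h6 : (6 : ℕ) ^ w = 2 ^ w * 3 ^ w := by
    rw [← mul_pow]
    norm_num
  have h1 : 4 * (M * (6 ^ w * 8 ^ m * X)) ≤ 8 ^ (w + m) := by
    calc 4 * (M * (6 ^ w * 8 ^ m * X)) = (4 * M * X * 3 ^ w) * (2 ^ w * 8 ^ m) := by
          rw [h6]; ring
      _ ≤ 4 ^ w * (2 ^ w * 8 ^ m) := Nat.mul_le_mul_right _ hg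
      _ = 8 ^ (w + m) := by rw [h8]; ring
  have h2 : 8 ^ (w + m) ≤ 2 * (N * (6 ^ w * 4 ^ m * X)) := by omega
  have h3 : 4 ^ m * (2 ^ w * (2 ^ (w + m) * 2 ^ w)) ≤ 4 ^ m * (2 ^ w * (2 * N * X * 3 ^ w)) := by
    calc 4 ^ m * (2 ^ w * (2 ^ (w + m) * 2 ^ w)) = 8 ^ (w + m) := by
          have h48 : (8 : ℕ) ^ m = 4 ^ m * 2 ^ m := by rw [← mul_pow]; norm_num
          have h42 : (4 : ℕ) ^ w = 2 ^ w * 2 ^ w := by rw [← mul_pow]; norm_num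
          rw [h8, h48, h42, pow_add]
          ring
      _ ≤ 2 * (N * (6 ^ w * 4 ^ m * X)) := h2
      _ = 4 ^ m * (2 ^ w * (2 * N * X * 3 ^ w)) := by rw [h6]; ring
  exact Nat.le_of_mul_le_mul_left (Nat.le_of_mul_le_mul_left h3 (by positivity)) (by positivity)

/-- The end of case B. -/
theorem case_c (n N M X v : ℕ) (h : 2 ^ n * 2 ^ (v + 1) ≤ 2 * N * X * 3 ^ (v + 1))
    (hv : 4 ^ v < 4 * M * X * 3 ^ v) : 4 ^ n ≤ 1024 * N ^ 2 * (M + 1) ^ 3 * X ^ 5 := by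
  have h1 : (2 ^ n * 2 ^ (v + 1)) ^ 2 ≤ (2 * N * X * 3 ^ (v + 1)) ^ 2 := Nat.pow_le_pow_left h 2
  have e1 : (2 ^ n * 2 ^ (v + 1)) ^ 2 = 4 ^ v * (4 * 4 ^ n) := by
    have h4 : ∀ k : ℕ, (2 ^ k) ^ 2 = 4 ^ k := by
      intro k
      rw [← pow_mul, mul_comm, pow_mul]
      norm_num
    rw [mul_pow, h4, h4, pow_succ]
    ring
  have e2 : (2 * N * X * 3 ^ (v + 1)) ^ 2 = 36 * N ^ 2 * X ^ 2 * 9 ^ v := by
    have h9 : (3 ^ v) ^ 2 = 9 ^ v := by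
      rw [← pow_mul, mul_comm, pow_mul]
      norm_num
    calc (2 * N * X * 3 ^ (v + 1)) ^ 2 = 36 * N ^ 2 * X ^ 2 * (3 ^ v) ^ 2 := by
          rw [pow_succ]; ring
      _ = 36 * N ^ 2 * X ^ 2 * 9 ^ v := by rw [h9]
  have h2 : (4 ^ v) ^ 3 ≤ (4 * M * X * 3 ^ v) ^ 3 := Nat.pow_le_pow_left hv.le 3
  have h3 : 9 ^ v * (3 ^ v) ^ 3 ≤ 4 ^ v * (4 ^ v) ^ 3 := by
    have a1 : 9 ^ v * (3 ^ v) ^ 3 = 243 ^ v := by
      rw [← pow_mul, mul_comm v 3, pow_mul, ← mul_pow]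
      norm_num
    have a2 : 4 ^ v * (4 ^ v) ^ 3 = 256 ^ v := by
      rw [← pow_mul, mul_comm v 3, pow_mul, ← mul_pow]
      norm_num
    rw [a1, a2]
    exact Nat.pow_le_pow_left (by norm_num) v
  have h4 : (3 ^ v) ^ 3 * 9 ^ v ≤ (3 ^ v) ^ 3 * (4 ^ v * (64 * M ^ 3 * X ^ 3)) := by
    calc (3 ^ v) ^ 3 * 9 ^ v = 9 ^ v * (3 ^ v) ^ 3 := by ring
      _ ≤ 4 ^ v * (4 ^ v) ^ 3 := h3
      _ ≤ 4 ^ v * (4 * M * X * 3 ^ v) ^ 3 := Nat.mul_le_mul_left _ h2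
      _ = (3 ^ v) ^ 3 * (4 ^ v * (64 * M ^ 3 * X ^ 3)) := by ring
  have h5 : 9 ^ v ≤ 4 ^ v * (64 * M ^ 3 * X ^ 3) := Nat.le_of_mul_le_mul_left h4 (by positivity)
  have h6 : 4 ^ v * (4 * 4 ^ n) ≤ 4 ^ v * (4 * (576 * N ^ 2 * M ^ 3 * X ^ 5)) := by
    calc 4 ^ v * (4 * 4 ^ n) ≤ 36 * N ^ 2 * X ^ 2 * 9 ^ v := by rw [← e1, ← e2]; exact h1
      _ ≤ 36 * N ^ 2 * X ^ 2 * (4 ^ v * (64 * M ^ 3 * X ^ 3)) := Nat.mul_le_mul_left _ h5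
      _ = 4 ^ v * (4 * (576 * N ^ 2 * M ^ 3 * X ^ 5)) := by ring
  have h7 : 4 ^ n ≤ 576 * N ^ 2 * M ^ 3 * X ^ 5 :=
    Nat.le_of_mul_le_mul_left (Nat.le_of_mul_le_mul_left h6 (by positivity)) (by norm_num)
  refine h7.trans ?_
  have h8 : M ^ 3 ≤ (M + 1) ^ 3 := Nat.pow_le_pow_left (Nat.le_succ M) 3
  calc 576 * N ^ 2 * M ^ 3 * X ^ 5 ≤ 1024 * N ^ 2 * (M + 1) ^ 3 * X ^ 5 := by
        gcongr
        · norm_num

theorem pf_NUM : T_NUM := by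
  classical
  intro n N M X b hX hMN hb h
  by_cases hex : ∃ w, w ≤ n ∧ 4 * M * X * 3 ^ w ≤ 4 ^ w
  · have hspec := Nat.find_spec hex
    have hmin : ∀ v, v < Nat.find hex → ¬ (v ≤ n ∧ 4 * M * X * 3 ^ v ≤ 4 ^ v) :=
      fun v hv => Nat.find_min hex hv
    generalize Nat.find hex = w at hspec hmin
    have h1 := case_b n N M X b w hspec.1 hb hspec.2 (h w hspec.1)
    rcases Nat.eq_zero_or_pos w with h0 | h0
    · subst h0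
      simp only [pow_zero, mul_one] at h1
      have h2 : (2 ^ n) ^ 2 ≤ (2 * N * X) ^ 2 := Nat.pow_le_pow_left h1 2
      have h3 : (2 ^ n) ^ 2 = 4 ^ n := by
        rw [← pow_mul, mul_comm, pow_mul]
        norm_num
      rw [h3] at h2
      refine h2.trans ?_
      calc (2 * N * X) ^ 2 = 4 * N ^ 2 * 1 ^ 3 * X ^ 2 := by ring
        _ ≤ 1024 * N ^ 2 * (M + 1) ^ 3 * X ^ 5 := by
          gcongr
          · norm_num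
          · omega
          · norm_num
    · obtain ⟨v, rfl⟩ : ∃ v, w = v + 1 := ⟨w - 1, by omega⟩
      have h2 := hmin v (Nat.lt_succ_self v)
      have h3 : 4 ^ v < 4 * M * X * 3 ^ v := by
        by_contra hc
        exact h2 ⟨by omega, not_lt.mp hc⟩
      exact case_c n N M X v h1 h3
  · have h1 : 4 ^ n < 4 * M * X * 3 ^ n := by
      by_contra hc
      exact hex ⟨n, le_rfl, not_lt.mp hc⟩
    exact case_a n N M X hMN h1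

end Pool.Agent.H49.RLM
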