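import Pool.Agent.H97.RL.Targets2
import Pool.Agent.H49.RLM.NUM

/-!
# Board `rlm_modules`, row NU2: the numbers, second wave
-/

set_option autoImplicit false

namespace Pool.Agent.H49.RLM

open Finset Pool.Agent.H97.RK Pool.Agent.H97.RL


theorem pf_NU2 : T_NU2 := by
  classical
  intro n N M X b w hX hMN hb hwn h
  have h49 : 4 ^ w ≤ 9 ^ w := Nat.pow_le_pow_left (by norm_num) w
  by_cases hex : ∃ v, w ≤ v ∧ v ≤ n ∧ 4 * M * X * 3 ^ v ≤ 4 ^ v
  · have hspec := Nat.find_spec hex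
    have hmin : ∀ v, v < Nat.find hex → ¬ (w ≤ v ∧ v ≤ n ∧ 4 * M * X * 3 ^ v ≤ 4 ^ v) :=
      fun v hv => Nat.find_min hex hv
    generalize Nat.find hex = u at hspec hmin
    have h1 := case_b n N M X b u hspec.2.1 hb hspec.2.2 (h u hspec.1 hspec.2.1)
    rcases Nat.eq_or_lt_of_le hspec.1 with h0 | h0
    · subst h0
      have h2 : (2 ^ n * 2 ^ w) ^ 2 ≤ (2 * N * X * 3 ^ w) ^ 2 := Nat.pow_le_pow_left h1 2
      have h4 : ∀ k : ℕ, (2 ^ k) ^ 2 = 4 ^ k := by
        intro k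
        rw [← pow_mul, mul_comm, pow_mul]
        norm_num
      have h9 : ∀ k : ℕ, (3 ^ k) ^ 2 = 9 ^ k := by
        intro k
        rw [← pow_mul, mul_comm, pow_mul]
        norm_num
      calc 4 ^ n * 4 ^ w = (2 ^ n * 2 ^ w) ^ 2 := by rw [mul_pow, h4, h4]
        _ ≤ (2 * N * X * 3 ^ w) ^ 2 := h2
        _ = 4 * N ^ 2 * 1 ^ 3 * X ^ 2 * 9 ^ w := by rw [mul_pow, h9]; ring
        _ ≤ 1024 * N ^ 2 * (M + 1) ^ 3 * X ^ 5 * 9 ^ w := by
          gcongr
          · norm_num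
          · omega
          · norm_num
    · obtain ⟨v, rfl⟩ : ∃ v, u = v + 1 := ⟨u - 1, by omega⟩
      have h2 := hmin v (Nat.lt_succ_self v)
      have h3 : 4 ^ v < 4 * M * X * 3 ^ v := by
        by_contra hc
        exact h2 ⟨by omega, by omega, not_lt.mp hc⟩
      exact Nat.mul_le_mul (case_c n N M X v h1 h3) h49
  · have h1 : 4 ^ n < 4 * M * X * 3 ^ n := by
      by_contra hc
      exact hex ⟨n, hwn, le_rfl, not_lt.mp hc⟩
    exact Nat.mul_le_mul (case_a n N M X hMN h1) h49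

end Pool.Agent.H49.RLM
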